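import Mathlib
import Pool.Agent.H98.S4.Targets

/-! Module EX of MP_eb32d7_co: the final assembly by strong induction. -/

set_option autoImplicit false

namespace Pool.Agent.H48.S4

open Pool.Agent.H98.S4

/-- `G` without the edges inside the blocks -/
def cut {V β : Type} (G : SimpleGraph V) (f : V → β) : SimpleGraph V where
  Adj x y := G.Adj x y ∧ f x ≠ f y
  symm := ⟨fun _ _ h => ⟨h.1.symm, h.2.symm⟩⟩
  loopless := ⟨fun _ h => h.1.ne rfl⟩

theorem s4_EX_core (hA1 : T_A1) (hA2 : T_A2) (hBB : T_BB) (hIT : T_IT) (hFO : T_FO)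
    (h3C : T_3C) (hKE : T_KE) (V β : Type) [Fintype V] [DecidableEq V] [DecidableEq β]
    (G : SimpleGraph V) (f : V → β) (hd : Deg2 G) (hb : Blk4 f)
    (hall : AllBelow (Fintype.card V)) : Col4 G f := by
  classical
  have hd0 : Deg2 (cut G f) := fun x a b c ha hb' hc => hd x a b c ha.1 hb'.1 hc.1
  have h00 : R0 (cut G f) f := fun u v h => h.2
  have key : Col4 (cut G f) f := by
    by_cases h2 : R2 (cut G f) f
    · obtain ⟨κ, cp, K, P, F, hF⟩ := hFO V β (cut G f) f hd0 hb h00 h2
        (hIT V β (cut G f) f hd0 hb h00 hall)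
      exact hKE V β κ (cut G f) f cp K P F hb h00 hF (h3C V β κ (cut G f) f cp K P F hb h00 hF)
    · unfold R2 at h2
      push Not at h2
      obtain ⟨u, v, w, huv, huw, hvw, hf⟩ := h2
      by_cases ht : ∃ t : V, t ≠ w ∧ (cut G f).Adj u t ∧ (cut G f).Adj v t
      · obtain ⟨t, htw, hut, hvt⟩ := ht
        by_cases hwt : f w = f t
        · exact hA1 V β (cut G f) f hd0 hb h00 hall u v w t huv htw.symm hf huw hvw hut hvt hwt
        · exact hA2 V β (cut G f) f hd0 hb h00 hall u v w t huv htw.symm hf huw hvw hut hvt hwt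
      · refine hBB V β (cut G f) f hd0 hb h00 hall u v w huv hf huw hvw ?_
        intro t h1 h3
        by_contra hne
        exact ht ⟨t, hne, h1, h3⟩
  obtain ⟨c, hc1, hc2⟩ := key
  refine ⟨c, fun u v huv => ?_, hc2⟩
  by_cases hf : f u = f v
  · exact hc2 u v hf huv.ne
  · exact hc1 u v ⟨huv, hf⟩

theorem s4_EX (hA1 : T_A1) (hA2 : T_A2) (hBB : T_BB) (hIT : T_IT) (hFO : T_FO)
    (h3C : T_3C) (hKE : T_KE) : T_EX := by
  have hall : ∀ n : ℕ, AllBelow n := by
    intro n
    induction n with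
    | zero =>
      intro V β _ _ _ G f h
      exact absurd h (Nat.not_lt_zero _)
    | succ n ih =>
      intro V β _ _ _ G f h hd hb
      rcases Nat.lt_succ_iff_lt_or_eq.mp h with h1 | h1
      · exact ih V β G f h1 hd hb
      · refine s4_EX_core hA1 hA2 hBB hIT hFO h3C hKE V β G f hd hb ?_
        rw [h1]
        exact ih
  intro V β _ _ _ G f hd hb
  exact s4_EX_core hA1 hA2 hBB hIT hFO h3C hKE V β G f hd hb (hall _)

end Pool.Agent.H48.S4
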